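import Pool.Agent.Q73.Dom.Example2

/-!
# Condition (a) does not imply property (D)
-/

set_option autoImplicit false

open Polynomial

namespace Pool.Agent.Results.MP_1c7d4c_an.ConditionANotEnough

/-- **Theorem (negative answer to Q1).**  There is a set `S` of `122` real numbers in `[-1, 1]`,
symmetric about the origin, such that the monic polynomial `Q = ∏_{s ∈ S} (X - s)` satisfies
condition (a), `|Q^{(k)}(x)| ≤ Q^{(k)}(1)` for all `k ≥ 0` and `-1 < x < 1`, but does not have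
property (D): `|Q(x + iy)| > |Q(1 + iy)|` for some `-1 ≤ x ≤ 1` and some real `y`. -/
theorem result : ∃ S : Finset ℝ, S.card = 122 ∧ (∀ s ∈ S, s ∈ Set.Icc (-1 : ℝ) 1) ∧
    (∀ s ∈ S, -s ∈ S) ∧ ∃ Q : ℝ[X], Q = ∏ s ∈ S, (X - C s) ∧
    (∀ k : ℕ, ∀ x ∈ Set.Ioo (-1 : ℝ) 1,
      |((derivative^[k]) Q).eval x| ≤ ((derivative^[k]) Q).eval 1) ∧
    ∃ x ∈ Set.Icc (-1 : ℝ) 1, ∃ y : ℝ,
      ‖aeval ((1 : ℂ) + y * Complex.I) Q‖ < ‖aeval ((x : ℂ) + y * Complex.I) Q‖ := by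
  refine ⟨Q73.PolyDom.S, Q73.PolyDom.S_card, fun s hs => Q73.PolyDom.S_mem_Icc hs,
    fun s hs => Q73.PolyDom.S_neg_mem hs, Q73.PolyDom.Q, Q73.PolyDom.Q_eq_prod, ?_, 0,
    by constructor <;> norm_num, √(11 / 10000), ?_⟩
  · intro k x hx
    exact Q73.PolyDom.Q_deriv_le (abs_le.2 ⟨hx.1.le, hx.2.le⟩) k
  · have h := Q73.PolyDom.violation (y := √(11 / 10000)) (Real.sq_sqrt (by norm_num))
    have e1 : (1 : ℂ) + (√(11 / 10000) : ℝ) * Complex.I =
        1 + Complex.I * (√(11 / 10000) : ℝ) := by ring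
    have e2 : ((0 : ℝ) : ℂ) + (√(11 / 10000) : ℝ) * Complex.I =
        Complex.I * (√(11 / 10000) : ℝ) := by push_cast; ring
    rw [e1, e2]
    exact h

end Pool.Agent.Results.MP_1c7d4c_an.ConditionANotEnough
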